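import Pool.Agent.V11258.AT.Point

set_option autoImplicit false

/-! From genericity to a uniform coding. -/

namespace Pool.Agent.V11258.AT

open Encodable Pool.Agent.Helper446 Pool.Agent.Helper446.RE Pool.Agent.Helper446.CB
open Pool.Agent.H288R3.CGC Set Filter Topology

/-- the enumeration operator with index `c`, applied to `B` -/
def op (c : ℕ) (B : Set ℕ) (a : ℕ) : Prop :=
  ∃ d : List ℕ, (∃ s, wst (ℕ × List ℕ) c s (a, d) = true) ∧ ∀ i ∈ d, i ∈ B

theorem exists_op {B : Set ℕ} {S : ℕ → Prop} (h : EIn B S) : ∃ c, ∀ a, S a ↔ op c B a := by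
  obtain ⟨R, hR, h⟩ := h
  obtain ⟨c, hc⟩ := wst_univ hR
  refine ⟨c, fun a => ?_⟩
  rw [h a]
  exact exists_congr fun d => and_congr (hc (a, d)) Iff.rfl

theorem op_mono {c : ℕ} {B B' : Set ℕ} (h : B ⊆ B') {a : ℕ} (ha : op c B a) : op c B' a := by
  obtain ⟨d, h1, h2⟩ := ha
  exact ⟨d, h1, fun i hi => h (h2 i hi)⟩

/-- evens and odds join -/
def jn (A B : Set ℕ) : Set ℕ := {n | (∃ m ∈ A, n = 2 * m) ∨ ∃ m ∈ B, n = 2 * m + 1}

/-- the total set of `G` -/
def BG (G : ℕ → Bool) : Set ℕ := {z | G (z / 2) = decide (z % 2 = 0)}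

/-- the finite information of a string -/
def Bf (ρ : List Bool) : Set ℕ := {z | z / 2 < ρ.length ∧ ρ.getD (z / 2) false = decide (z % 2 = 0)}

/-- `G` extends `ρ` -/
def Ext (ρ : List Bool) (G : ℕ → Bool) : Prop := ∀ i < ρ.length, G i = ρ.getD i false

theorem Bf_sub {ρ : List Bool} {G : ℕ → Bool} (h : Ext ρ G) : Bf ρ ⊆ BG G := by
  rintro z ⟨h1, h2⟩
  show G (z / 2) = decide (z % 2 = 0)
  rw [h _ h1]; exact h2

theorem jn_mono {A B B' : Set ℕ} (h : B ⊆ B') : jn A B ⊆ jn A B' := by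
  rintro n (h1 | ⟨m, h1, h2⟩)
  · exact Or.inl h1
  · exact Or.inr ⟨m, h h1, h2⟩

/-- initial segments -/
def sg (G : ℕ → Bool) (k : ℕ) : List Bool := (List.range k).map G

theorem sg_length (G : ℕ → Bool) (k : ℕ) : (sg G k).length = k := by simp [sg]

theorem sg_getD {G : ℕ → Bool} {k i : ℕ} (h : i < k) : (sg G k).getD i false = G i := by
  rw [List.getD_eq_getElem?_getD]; simp [sg, h]

theorem sg_split {ρ : List Bool} {G : ℕ → Bool} (h : Ext ρ G) {k : ℕ} (hk : ρ.length ≤ k) :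
    ∃ τ, sg G k = ρ ++ τ := by
  refine ⟨(sg G k).drop ρ.length, ?_⟩
  have h1 : (sg G k).take ρ.length = ρ := by
    refine List.ext_getElem (by rw [List.length_take, sg_length]; omega) ?_
    intro i h2 h3
    rw [List.getElem_take]
    have h4 := h i h3
    rw [List.getD_eq_getElem?_getD, List.getElem?_eq_getElem h3, Option.getD_some] at h4
    rw [← h4]
    simp [sg]
  conv_lhs => rw [← List.take_append_drop ρ.length (sg G k), h1]

theorem Ext_sg (G : ℕ → Bool) (k : ℕ) : Ext (sg G k) G := by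
  intro i hi
  rw [sg_length] at hi
  exact (sg_getD hi).symm

/-- use principle -/
theorem op_use {A : Set ℕ} {G : ℕ → Bool} {c n : ℕ} (h : op c (jn A (BG G)) n) :
    ∃ k, ∀ k', k ≤ k' → op c (jn A (Bf (sg G k'))) n := by
  obtain ⟨d, h1, h2⟩ := h
  refine ⟨d.sum + 1, fun k' hk' => ⟨d, h1, fun i hi => ?_⟩⟩
  have h3 : i ≤ d.sum := List.single_le_sum (fun _ _ => Nat.zero_le _) i hi
  rcases h2 i hi with h4 | ⟨m, h4, h5⟩
  · exact Or.inl h4
  · refine Or.inr ⟨m, ⟨?_, ?_⟩, h5⟩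
    · rw [sg_length]; omega
    · rw [sg_getD (by omega)]; exact h4

theorem isOpen_Ext (ρ : List Bool) : IsOpen {G : ℕ → Bool | Ext ρ G} := by
  have : {G : ℕ → Bool | Ext ρ G} = ⋂ i ∈ Finset.range ρ.length, {G | G i = ρ.getD i false} := by
    ext G; simp [Ext]
  rw [this]
  refine isOpen_biInter_finset fun i _ => ?_
  exact (isOpen_discrete {b | b = ρ.getD i false}).preimage (continuous_apply (A := fun _ : ℕ => Bool) i)

/-- types of the codes -/
abbrev Tr : Type := List Bool × (ℕ × Bool)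

/-- the default -/
def t0 : Tr := ([], (0, false))

/-- comparable strings -/
def cmp (τ τ' : List Bool) : Prop :=
  τ.take (min τ.length τ'.length) = τ'.take (min τ.length τ'.length)

theorem cmp_iff (τ τ' : List Bool) : cmp τ τ' ↔ τ <+: τ' ∨ τ' <+: τ := by
  unfold cmp
  rcases le_total τ.length τ'.length with h | h
  · rw [min_eq_left h, List.take_length, ← List.prefix_iff_eq_take]
    constructor
    · exact Or.inl
    · rintro (h1 | h1)
      · exact h1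
      · rw [h1.eq_of_length_le h]
  · rw [min_eq_right h, List.take_length, eq_comm, ← List.prefix_iff_eq_take]
    constructor
    · exact Or.inr
    · rintro (h1 | h1)
      · rw [h1.eq_of_length_le h]
      · exact h1

/-- conflict of codes -/
def cfl (u v : ℕ) : Prop :=
  ((gd t0 u).2.1 = (gd t0 v).2.1 ∧ (gd t0 u).2.2 ≠ (gd t0 v).2.2) ∧ cmp (gd t0 u).1 (gd t0 v).1

theorem take_comp {α : Type} [Primcodable α] {f : α → ℕ} {l : α → List Bool} (hf : Computable f)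
    (hl : Computable l) : Computable fun a => (l a).take (f a) :=
  Primrec.list_take.to_comp.comp hf hl

theorem cfl_comp : ComputablePred fun p : ℕ × ℕ => cfl p.1 p.2 := by
  unfold cfl cmp
  refine cp_and (cp_and (cp_eq (by fun_prop) (by fun_prop))
    (ComputablePred.not (cp_eq (by fun_prop) (by fun_prop)))) ?_
  exact cp_eq (take_comp (by fun_prop) (by fun_prop)) (take_comp (by fun_prop) (by fun_prop))

/-- the basic information -/
def VV (A : Set ℕ) (s0 : List Bool) (c1 c0 : ℕ) (t : Tr) : Prop :=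
  op (bif t.2.2 then c1 else c0) (jn A (Bf (s0 ++ t.1))) t.2.1

theorem VV_ein (A : Set ℕ) (s0 : List Bool) (c1 c0 : ℕ) : EIn A (VV A s0 c1 c0) := by
  have h1 : EIn A fun t : Tr => ∃ d : List ℕ,
      (∃ s, wst (ℕ × List ℕ) (bif t.2.2 then c1 else c0) s (t.2.1, d) = true) ∧
      ∀ k < d.length, ∃ m : ℕ, (m ∈ A ∧ d.getD k 0 = 2 * m) ∨
        (((m / 2 < (s0 ++ t.1).length ∧
          (s0 ++ t.1)[m / 2]? = some (m % 2 == 0)) ∧ d.getD k 0 = 2 * m + 1)) := by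
    refine EIn.ex (S := fun (t : Tr) (d : List ℕ) =>
      (∃ s, wst (ℕ × List ℕ) (bif t.2.2 then c1 else c0) s (t.2.1, d) = true) ∧
      ∀ k < d.length, ∃ m : ℕ, (m ∈ A ∧ d.getD k 0 = 2 * m) ∨
        (((m / 2 < (s0 ++ t.1).length ∧
          (s0 ++ t.1)[m / 2]? = some (m % 2 == 0)) ∧ d.getD k 0 = 2 * m + 1))) ?_
    refine EIn.and (EIn.of_re ?_) ?_
    · refine RE.exN (p := fun (x : Tr × List ℕ) (s : ℕ) =>
        wst (ℕ × List ℕ) (bif x.1.2.2 then c1 else c0) s (x.1.2.1, x.2) = true) (of_bool ?_)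
      exact wst_comp.comp (f := fun p : (ℕ × ℕ) × (ℕ × List ℕ) => wst (ℕ × List ℕ) p.1.1 p.1.2 p.2)
        (g := fun x : (Tr × List ℕ) × ℕ => ((bif x.1.1.2.2 then c1 else c0, x.2),
          (x.1.1.2.1, x.1.2))) (by fun_prop)
    · refine EIn.all_lt (S := fun (x : Tr × List ℕ) (k : ℕ) =>
        ∃ m : ℕ, (m ∈ A ∧ x.2.getD k 0 = 2 * m) ∨
        (((m / 2 < (s0 ++ x.1.1).length ∧
          (s0 ++ x.1.1)[m / 2]? = some (m % 2 == 0)) ∧ x.2.getD k 0 = 2 * m + 1))) ?_ (by fun_prop)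
      refine EIn.ex (S := fun (x : (Tr × List ℕ) × ℕ) (m : ℕ) =>
        (m ∈ A ∧ x.1.2.getD x.2 0 = 2 * m) ∨
        (((m / 2 < (s0 ++ x.1.1.1).length ∧
          (s0 ++ x.1.1.1)[m / 2]? = some (m % 2 == 0)) ∧ x.1.2.getD x.2 0 = 2 * m + 1))) ?_
      have hb : Computable fun x : ((Tr × List ℕ) × ℕ) × ℕ => (x.2 % 2 == 0) := by
        have h5 : Primrec₂ fun m n : ℕ => (m == n) := Primrec.beq
        exact h5.to_comp.comp (mod_comp (by fun_prop)) (by fun_prop)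
      refine EIn.or (EIn.and (EIn.mem (by fun_prop)) (EIn.of_re (RE.eq (by fun_prop)
        (by fun_prop)))) (EIn.of_re (RE.and (RE.and (RE.lt (by fun_prop) (by fun_prop))
        (RE.eq (by fun_prop) (csome hb))) (RE.eq (by fun_prop) (by fun_prop))))
  refine h1.of_eq fun t => ?_
  unfold VV op
  refine exists_congr fun d => and_congr Iff.rfl ?_
  have key : ∀ j, (∃ m : ℕ, (m ∈ A ∧ j = 2 * m) ∨
        (((m / 2 < (s0 ++ t.1).length ∧
          (s0 ++ t.1)[m / 2]? = some (m % 2 == 0)) ∧ j = 2 * m + 1))) ↔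
        j ∈ jn A (Bf (s0 ++ t.1)) := by
    intro j
    constructor
    · rintro ⟨m, ⟨h2, h3⟩ | ⟨⟨h2, h3⟩, h4⟩⟩
      · exact Or.inl ⟨m, h2, h3⟩
      · refine Or.inr ⟨m, ⟨h2, ?_⟩, h4⟩
        rw [List.getD_eq_getElem?_getD, h3, Option.getD_some]
        rfl
    · rintro (⟨m, h2, h3⟩ | ⟨m, ⟨h2, h3⟩, h4⟩)
      · exact ⟨m, Or.inl ⟨h2, h3⟩⟩
      · refine ⟨m, Or.inr ⟨⟨h2, ?_⟩, h4⟩⟩
        rw [List.getD_eq_getElem?_getD, List.getElem?_eq_getElem h2, Option.getD_some] at h3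
        rw [List.getElem?_eq_getElem h2, h3]
        rfl
  constructor
  · intro h i hi
    obtain ⟨k, hk, rfl⟩ := List.getElem_of_mem hi
    have := h k hk
    rw [List.getD_eq_getElem?_getD, List.getElem?_eq_getElem hk, Option.getD_some] at this
    exact (key _).1 this
  · intro h k hk
    rw [List.getD_eq_getElem?_getD, List.getElem?_eq_getElem hk, Option.getD_some]
    exact (key _).2 (h _ (List.getElem_mem hk))

/-- From a comeager set of generics in a cylinder we get the graph. -/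
theorem of_generic {A : Set ℕ} {s0 : List Bool} {c1 c0 d0 : ℕ} {Dn : Set (ℕ → Bool)}
    (hD : Dense Dn) (h : ∀ G ∈ Dn, Ext s0 G →
      (∀ a, op c1 (jn A (BG G)) a ↔ ¬ op c0 (jn A (BG G)) a) ∧
      ∀ a, a ∈ A ↔ op d0 {n | op c1 (jn A (BG G)) n} a) : ∃ f : ℕ → ℕ,
    EIn {k : ℕ | f (Nat.unpair k).1 ≠ (Nat.unpair k).2} (fun y : ℕ => y ∈ A) ∧
      EIn A (fun k : ℕ => k ∈ {k : ℕ | f (Nat.unpair k).1 ≠ (Nat.unpair k).2}) := by
  have hmeet : ∀ τ : List Bool, ∃ G ∈ Dn, Ext (s0 ++ τ) G := by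
    intro τ
    obtain ⟨G, hG1, hG2⟩ := hD.inter_open_nonempty _ (isOpen_Ext (s0 ++ τ))
      ⟨fun i => (s0 ++ τ).getD i false, fun i _ => rfl⟩
    exact ⟨G, hG2, hG1⟩
  have hext : ∀ {τ : List Bool} {G : ℕ → Bool}, Ext (s0 ++ τ) G → Ext s0 G := by
    intro τ G hE i hi
    rw [hE i (by rw [List.length_append]; omega), List.getD_eq_getElem?_getD,
      List.getD_eq_getElem?_getD, List.getElem?_append_left hi]
  have hextp : ∀ {τ τ' : List Bool} {G : ℕ → Bool}, τ <+: τ' → Ext (s0 ++ τ') G →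
      Ext (s0 ++ τ) G := by
    rintro τ _ G ⟨w, rfl⟩ hE i hi
    rw [hE i (by rw [List.length_append, List.length_append] at *; omega), ← List.append_assoc,
      List.getD_eq_getElem?_getD, List.getD_eq_getElem?_getD, List.getElem?_append_left hi]
  have hVop : ∀ {τ : List Bool} {n : ℕ} {b : Bool} {G : ℕ → Bool}, Ext (s0 ++ τ) G →
      VV A s0 c1 c0 (τ, (n, b)) → op (bif b then c1 else c0) (jn A (BG G)) n := by
    intro τ n b G hE hV
    exact op_mono (jn_mono (Bf_sub hE)) hV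
  have hopV : ∀ {τ : List Bool} {G : ℕ → Bool}, Ext (s0 ++ τ) G → ∀ {c n : ℕ},
      op c (jn A (BG G)) n → ∃ k, ∀ k', k ≤ k' → ∃ τ', τ <+: τ' ∧ sg G k' = s0 ++ τ' ∧
        op c (jn A (Bf (s0 ++ τ'))) n := by
    intro τ G hE c n hop
    obtain ⟨k, hk⟩ := op_use hop
    refine ⟨max k (s0 ++ τ).length, fun k' hk' => ?_⟩
    obtain ⟨w, hw⟩ := sg_split hE (le_trans (le_max_right _ _) hk')
    refine ⟨τ ++ w, List.prefix_append _ _, by rw [hw, List.append_assoc], ?_⟩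
    have := hk k' (le_trans (le_max_left _ _) hk')
    rw [hw, List.append_assoc] at this
    exact this
  let Y0 : ℕ → Prop := fun u => ∃ t : Tr, encode t = u ∧ VV A s0 c1 c0 t
  have hY0 : EIn A Y0 := by
    refine EIn.ex (S := fun (u : ℕ) (t : Tr) => encode t = u ∧ VV A s0 c1 c0 t) ?_
    refine EIn.and (EIn.of_re (RE.eq (by fun_prop) (by fun_prop))) ?_
    exact (VV_ein A s0 c1 c0).comp (f := fun x : ℕ × Tr => x.2) (by fun_prop)
  -- no two contradictory pieces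
  have hcons : ∀ {τ τ' : List Bool} {n : ℕ} {b b' : Bool}, VV A s0 c1 c0 (τ, (n, b)) →
      VV A s0 c1 c0 (τ', (n, b')) → b ≠ b' → τ <+: τ' → False := by
    intro τ τ' n b b' h1 h2 hb hp
    obtain ⟨G, hG1, hG2⟩ := hmeet τ'
    have h3 := hVop (hextp hp hG2) h1
    have h4 := hVop hG2 h2
    have h5 := (h G hG1 (hext hG2)).1 n
    cases b <;> cases b'
    · exact hb rfl
    · exact h5.1 h4 h3
    · exact h5.1 h3 h4
    · exact hb rfl
  have hne : ∀ u v, Y0 u → Y0 v → ¬ cfl u v := by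
    rintro _ _ ⟨⟨τ, n, b⟩, rfl, h1⟩ ⟨⟨τ', n', b'⟩, rfl, h2⟩ hc
    unfold cfl at hc
    rw [gd_encode, gd_encode] at hc
    obtain ⟨⟨h3, h4⟩, h5⟩ := hc
    have h3' : n = n' := h3
    subst h3'
    rcases (cmp_iff _ _).1 h5 with h6 | h6
    · exact hcons h1 h2 h4 h6
    · exact hcons h2 h1 (fun h => h4 h.symm) h6
  let R : ℕ → List ℕ → Prop := fun a c => ∃ q : List Bool × List ℕ,
    (∃ s, wst (ℕ × List ℕ) d0 s (a, q.2) = true) ∧ ∀ n ∈ q.2, encode ((q.1, (n, true)) : Tr) ∈ c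
  have hR : REPred fun p : ℕ × List ℕ => R p.1 p.2 := by
    refine RE.ex (p := fun (p : ℕ × List ℕ) (q : List Bool × List ℕ) =>
      (∃ s, wst (ℕ × List ℕ) d0 s (p.1, q.2) = true) ∧
      ∀ n ∈ q.2, encode ((q.1, (n, true)) : Tr) ∈ p.2) ?_
    refine RE.and ?_ ?_
    · refine RE.exN (p := fun (x : (ℕ × List ℕ) × (List Bool × List ℕ)) (s : ℕ) =>
        wst (ℕ × List ℕ) d0 s (x.1.1, x.2.2) = true) (of_bool ?_)
      exact wst_comp.comp (f := fun p : (ℕ × ℕ) × (ℕ × List ℕ) => wst (ℕ × List ℕ) p.1.1 p.1.2 p.2)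
        (g := fun x : ((ℕ × List ℕ) × (List Bool × List ℕ)) × ℕ => ((d0, x.2),
          (x.1.1.1, x.1.2.2))) (by fun_prop)
    · exact RE.all_mem (p := fun (x : (ℕ × List ℕ) × (List Bool × List ℕ)) (n : ℕ) =>
        encode ((x.2.1, (n, true)) : Tr) ∈ x.1.2) (RE.mem_list (by fun_prop) (by fun_prop))
        (by fun_prop)
  refine graph (A := A) ⟨Y0, hY0, cfl, cfl_comp, hne, R, hR, ?_⟩
  intro Y hY1 hY2 a
  constructor
  · intro ha
    obtain ⟨G, hG1, hG2⟩ := hmeet []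
    obtain ⟨F, hF1, hF2⟩ := ((h G hG1 (hext hG2)).2 a).1 ha
    have h6 : ∀ n ∈ F, ∃ k, ∀ k', k ≤ k' → ∃ τ', sg G k' = s0 ++ τ' ∧ VV A s0 c1 c0 (τ', (n, true)) := by
      intro n hn
      obtain ⟨k, hk⟩ := hopV hG2 (hF2 n hn)
      refine ⟨k, fun k' hk' => ?_⟩
      obtain ⟨τ', -, h7, h8⟩ := hk k' hk'
      exact ⟨τ', h7, h8⟩
    have h7 : ∃ k, ∀ k', k ≤ k' → ∀ n ∈ F, ∃ τ', sg G k' = s0 ++ τ' ∧
        VV A s0 c1 c0 (τ', (n, true)) := by
      clear hF1 hF2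
      induction F with
      | nil => exact ⟨0, fun _ _ n hn => absurd hn (by simp)⟩
      | cons x F ih =>
        obtain ⟨k, hk⟩ := ih (fun n hn => h6 n (List.mem_cons_of_mem _ hn))
        obtain ⟨k2, hk2⟩ := h6 x (by simp)
        refine ⟨max k k2, fun k' hk' n hn => ?_⟩
        rcases List.mem_cons.1 hn with rfl | hn
        · exact hk2 k' (le_trans (le_max_right _ _) hk')
        · exact hk k' (le_trans (le_max_left _ _) hk') n hn
    obtain ⟨k, hk⟩ := h7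
    obtain ⟨τ, hτ⟩ := sg_split (hext hG2) (le_max_right k s0.length)
    have h8 : ∀ n ∈ F, VV A s0 c1 c0 (τ, (n, true)) := by
      intro n hn
      obtain ⟨τ', h9, h10⟩ := hk _ (le_max_left k s0.length) n hn
      rw [hτ] at h9
      have : τ = τ' := List.append_cancel_left h9
      rw [this]; exact h10
    refine ⟨F.map fun n => encode ((τ, (n, true)) : Tr), ⟨(τ, F), hF1, fun n hn =>
      List.mem_map.2 ⟨n, hn, rfl⟩⟩, ?_⟩
    intro i hi
    obtain ⟨n, hn, rfl⟩ := List.mem_map.1 hi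
    exact hY1 _ ⟨_, rfl, h8 n hn⟩
  · rintro ⟨c, ⟨⟨τ, F⟩, hF1, hF2⟩, hc⟩
    obtain ⟨G, hG1, hG2⟩ := hmeet τ
    obtain ⟨h6, h7⟩ := h G hG1 (hext hG2)
    refine (h7 a).2 ⟨F, hF1, fun n hn => ?_⟩
    show op c1 (jn A (BG G)) n
    by_contra hcon
    have h8 : op c0 (jn A (BG G)) n := by
      by_contra h9
      exact hcon ((h6 n).2 h9)
    obtain ⟨k, hk⟩ := hopV hG2 h8
    obtain ⟨τ', h9, -, h10⟩ := hk k (le_refl _)
    have h11 : Y (encode ((τ', (n, false)) : Tr)) := hY1 _ ⟨_, rfl, h10⟩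
    have h12 : Y (encode ((τ, (n, true)) : Tr)) := hc _ (hF2 n hn)
    refine hY2 _ _ h12 h11 ?_
    unfold cfl
    rw [gd_encode, gd_encode]
    exact ⟨⟨rfl, by simp⟩, (cmp_iff _ _).2 (Or.inl h9)⟩

end Pool.Agent.V11258.AT
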