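import Pool.Agent.V11258.AT.Real

set_option autoImplicit false

/-! A uniformly codable set is enumeration equivalent to the complement of a graph. -/

namespace Pool.Agent.V11258.AT

open Encodable Pool.Agent.Helper446 Pool.Agent.Helper446.RE Pool.Agent.Helper446.CB
open Pool.Agent.H288R3.CGC

variable {A : Set ℕ} (K : Cod A)

/-- `e` is not seen at stage `t` along any member of the class -/
def UK (c : ℕ) (p : ℕ × ℕ) : Prop :=
  ∃ l, p.2 ≤ l ∧ ∀ m < 2 ^ l, ¬ seen c p.1 p.2 m ∨ dead K l m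

theorem UK_ein (c : ℕ) : EIn A (UK K c) := by
  refine EIn.ex (S := fun (p : ℕ × ℕ) (l : ℕ) =>
    p.2 ≤ l ∧ ∀ m < 2 ^ l, ¬ seen c p.1 p.2 m ∨ dead K l m) ?_
  refine EIn.and (EIn.of_re (RE.le (by fun_prop) (by fun_prop))) ?_
  refine EIn.all_lt (S := fun (x : (ℕ × ℕ) × ℕ) (m : ℕ) =>
    ¬ seen c x.1.1 x.1.2 m ∨ dead K x.2 m) ?_ (f := fun x : (ℕ × ℕ) × ℕ => 2 ^ x.2) (by fun_prop)
  refine EIn.or (EIn.of_re (ComputablePred.not ?_).to_re) ?_
  · exact cp_comp (seen_comp c) (f := fun q : ((ℕ × ℕ) × ℕ) × ℕ => (q.1.1, q.2)) (by fun_prop)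
  · exact (dead_ein K).comp (f := fun x : ((ℕ × ℕ) × ℕ) × ℕ => (x.1.2, x.2)) (by fun_prop)

theorem UK_or {c : ℕ} (hc : ∀ Y, InP K Y → ∀ a, a ∈ A ↔ ∃ l, seen c a l (nb Y l)) (p : ℕ × ℕ) :
    UK K c p ∨ p.1 ∈ A := by
  by_cases hA : p.1 ∈ A
  · exact Or.inr hA
  · left
    obtain ⟨l, hl⟩ := compact K (T := fun l m => p.2 ≤ l ∧ ¬ seen c p.1 p.2 m) (by
      rintro l m m' h ⟨h1, h2⟩
      refine ⟨h1, fun h3 => h2 (seen_dep _ _ _ _ _ ?_ h3)⟩
      intro u hu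
      exact (h u (by omega)).symm) (by
      rintro l m ⟨h1, h2⟩
      exact ⟨by omega, h2⟩) (by
      intro Y hY
      exact ⟨p.2, le_refl _, fun h => hA ((hc Y hY p.1).2 ⟨p.2, h⟩)⟩)
    refine ⟨max l p.2, le_max_right _ _, ?_⟩
    intro m hm
    -- reduce to the level `l`
    have h1 : ∀ u < l, m.testBit u = (m % 2 ^ l).testBit u := by
      intro u hu
      rw [Nat.testBit_mod_two_pow]
      simp [hu]
    rcases hl (m % 2 ^ l) (Nat.mod_lt _ (by positivity)) with ⟨h2, h3⟩ | h2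
    · left
      intro h4
      refine h3 (seen_dep _ _ _ _ _ ?_ h4)
      intro u hu
      exact h1 u (by omega)
    · right
      have h3 : dead K l m := dead_dep K _ _ _ (fun u hu => (h1 u hu).symm) h2
      have h4 : ∀ l', l ≤ l' → dead K l' m := by
        intro l' hl'
        induction l', hl' using Nat.le_induction with
        | base => exact h3
        | succ n _ ih => exact dead_mono K _ _ ih
      exact h4 _ (le_max_left _ _)

theorem UK_not {c : ℕ} (hc : ∀ Y, InP K Y → ∀ a, a ∈ A ↔ ∃ l, seen c a l (nb Y l)) {a : ℕ}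
    (ha : a ∈ A) : ∃ t, ¬ UK K c (a, t) := by
  obtain ⟨t, ht⟩ := (hc _ (Yc_inP K) a).1 ha
  refine ⟨t, ?_⟩
  rintro ⟨l, hl, h⟩
  rcases h _ bit_bound with h1 | h1
  · apply h1
    refine seen_dep _ _ _ _ _ ?_ ht
    intro u hu
    have hu' : u < l := lt_of_lt_of_le hu hl
    rw [nb_testBit_lt hu, nb_testBit_lt hu']
  · exact not_dead K (Yc_inP K) l h1

include K in
theorem point : ∃ x : ℕ → ℝ, (∀ n, x n ∈ Set.Icc (0:ℝ) 1) ∧ EIn A (fun k : ℕ => k ∈ NS x) ∧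
    EIn (NS x) (fun a : ℕ => a ∈ A) := by
  obtain ⟨c, hc⟩ := exists_cq K
  obtain ⟨cA, hcA⟩ := exists_cA K
  obtain ⟨k1, hk1⟩ := uq_univ (V1_ein K c)
  obtain ⟨k2, hk2⟩ := uq_univ (V2_ein K c)
  obtain ⟨k3, hk3⟩ := uq_univ (UK_ein K cA)
  obtain ⟨k4, hk4⟩ := uq_univ (EIn.mem (B := A) (f := fun e : ℕ => e) (by fun_prop))
  let i1 : ℕ × ℕ → ℕ := fun s => Nat.pair k1 (encode s)
  let i2 : ℕ × ℕ → ℕ := fun s => Nat.pair k2 (encode s)
  let root : ℕ → ℕ × ℕ := fun n => (Nat.pair k3 (encode n.unpair), Nat.pair k4 (encode n.unpair.1))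
  have hi1 : ∀ s, Uq A (i1 s) ↔ V1 K c s := fun s => (hk1 s).symm
  have hi2 : ∀ s, Uq A (i2 s) ↔ V2 K c s := fun s => (hk2 s).symm
  have hd := V_disj K c
  have h1 : ∀ s : ℕ × ℕ, ¬ Uq A s.1 → Uq A s.2 → V1 K c s := fun s => V1_of hc
  have h2 : ∀ s : ℕ × ℕ, Uq A s.1 → ¬ Uq A s.2 → V2 K c s := fun s => V2_of hc
  have hroot : ∀ n, Uq A (root n).1 ∨ Uq A (root n).2 := by
    intro n
    rcases UK_or K hcA n.unpair with h | h
    · exact Or.inl ((hk3 _).1 h)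
    · exact Or.inr ((hk4 _).1 h)
  let x : ℕ → ℝ := fun n => gg (V1 K c) i1 i2 (root n)
  have hpr : Computable fun q : (ℕ × ℕ) × List Bool => pr i1 i2 q.1 q.2 := by
    have h3 : Computable₂ fun (_ : (ℕ × ℕ) × List Bool) (y : (ℕ × ℕ) × Bool) => step i1 i2 y.1 y.2 := by
      have h4 : Computable fun x : ((ℕ × ℕ) × List Bool) × ((ℕ × ℕ) × Bool) =>
          (bif x.2.2 then (x.2.1.1, Nat.pair k1 (encode x.2.1)) else
            (Nat.pair k2 (encode x.2.1), x.2.1.2)) := by fun_prop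
      refine h4.of_eq fun x => ?_
      obtain ⟨x1, x2, b⟩ := x
      cases b <;> rfl
    exact RE.list_foldl (f := fun q : (ℕ × ℕ) × List Bool => q.2) (g := fun q => q.1)
      (h := fun (_ : (ℕ × ℕ) × List Bool) (y : (ℕ × ℕ) × Bool) => step i1 i2 y.1 y.2)
      (by fun_prop) (by fun_prop) h3
  have hrt : Computable root := by
    have : Computable fun n : ℕ => (Nat.pair k3 (encode n.unpair), Nat.pair k4 (encode n.unpair.1)) := by
      fun_prop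
    exact this
  have hpz : Computable fun z : ((ℕ × ℕ) × (ℕ × ℕ)) × List Bool => pr i1 i2 (root z.1.1.1) z.2 := by
    have hz1 : Computable fun z : ((ℕ × ℕ) × (ℕ × ℕ)) × List Bool => root z.1.1.1 :=
      Computable.comp (f := root) hrt (by fun_prop)
    have hz2 : Computable fun z : ((ℕ × ℕ) × (ℕ × ℕ)) × List Bool => (root z.1.1.1, z.2) :=
      Computable.pair hz1 (by fun_prop)
    exact Computable.comp (f := fun q : (ℕ × ℕ) × List Bool => pr i1 i2 q.1 q.2)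
      (g := fun z : ((ℕ × ℕ) × (ℕ × ℕ)) × List Bool => (root z.1.1.1, z.2)) hpr hz2
  have hV1z : EIn A fun z : ((ℕ × ℕ) × (ℕ × ℕ)) × List Bool => V1 K c (pr i1 i2 (root z.1.1.1) z.2) :=
    (V1_ein K c).comp hpz
  have hV2z : EIn A fun z : ((ℕ × ℕ) × (ℕ × ℕ)) × List Bool => V2 K c (pr i1 i2 (root z.1.1.1) z.2) :=
    (V2_ein K c).comp hpz
  have hL : EIn A fun q : (ℕ × ℕ) × (ℕ × ℕ) =>
      ((q.1.2 : ℝ) - q.2.1) / ((q.2.2 : ℝ) + 1) < x q.1.1 := by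
    have h3 : EIn A fun q : (ℕ × ℕ) × (ℕ × ℕ) => q.1.2 < q.2.1 ∨ ∃ l : List Bool,
        q.1.2 * 2 ^ (l.length + 1) < (2 * vv l + 1) * (q.2.2 + 1) + q.2.1 * 2 ^ (l.length + 1) ∧
        V1 K c (pr i1 i2 (root q.1.1) l) := by
      refine EIn.or (EIn.of_re (RE.lt (by fun_prop) (by fun_prop))) ?_
      refine EIn.ex (S := fun (q : (ℕ × ℕ) × (ℕ × ℕ)) (l : List Bool) =>
        q.1.2 * 2 ^ (l.length + 1) < (2 * vv l + 1) * (q.2.2 + 1) + q.2.1 * 2 ^ (l.length + 1) ∧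
        V1 K c (pr i1 i2 (root q.1.1) l)) ?_
      exact EIn.and (EIn.of_re (RE.lt (by fun_prop) (by fun_prop))) hV1z
    refine h3.of_eq fun q => ?_
    obtain ⟨⟨n, a⟩, ⟨b, d⟩⟩ := q
    show _ ↔ ((a : ℝ) - b) / ((d : ℝ) + 1) < gg (V1 K c) i1 i2 (root n)
    rw [lt_gg_iff]
    refine or_congr ?_ ?_
    · rw [div_lt_iff₀ (by positivity), zero_mul, sub_neg]
      exact_mod_cast Iff.rfl
    · refine exists_congr fun l => and_congr ?_ Iff.rfl
      exact (lt_mid_iff a b d l).symm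
  have hG : EIn A fun q : (ℕ × ℕ) × (ℕ × ℕ) =>
      x q.1.1 < ((q.1.2 : ℝ) - q.2.1) / ((q.2.2 : ℝ) + 1) := by
    have h3 : EIn A fun q : (ℕ × ℕ) × (ℕ × ℕ) => q.2.2 + 1 + q.2.1 < q.1.2 ∨ ∃ l : List Bool,
        (2 * vv l + 1) * (q.2.2 + 1) + q.2.1 * 2 ^ (l.length + 1) < q.1.2 * 2 ^ (l.length + 1) ∧
        V2 K c (pr i1 i2 (root q.1.1) l) := by
      refine EIn.or (EIn.of_re (RE.lt (by fun_prop) (by fun_prop))) ?_
      refine EIn.ex (S := fun (q : (ℕ × ℕ) × (ℕ × ℕ)) (l : List Bool) =>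
        (2 * vv l + 1) * (q.2.2 + 1) + q.2.1 * 2 ^ (l.length + 1) < q.1.2 * 2 ^ (l.length + 1) ∧
        V2 K c (pr i1 i2 (root q.1.1) l)) ?_
      exact EIn.and (EIn.of_re (RE.lt (by fun_prop) (by fun_prop))) hV2z
    refine h3.of_eq fun q => ?_
    obtain ⟨⟨n, a⟩, ⟨b, d⟩⟩ := q
    show _ ↔ gg (V1 K c) i1 i2 (root n) < ((a : ℝ) - b) / ((d : ℝ) + 1)
    rw [gg_lt_iff hi1 hi2 hd h1 h2 (hroot n)]
    refine or_congr ?_ ?_
    · rw [lt_div_iff₀ (by positivity), one_mul, lt_sub_iff_add_lt]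
      exact_mod_cast Iff.rfl
    · refine exists_congr fun l => and_congr ?_ Iff.rfl
      exact (mid_lt_iff a b d l).symm
  refine ⟨x, fun n => ⟨gg_nonneg _, gg_le _⟩, ?_, ?_⟩
  · have h3 : EIn A fun k : ℕ => ∃ q : (ℕ × ℕ) × (ℕ × ℕ),
        (k = 2 * Nat.pair q.1.1 (Nat.pair (Nat.pair q.1.2 q.2.1) q.2.2) ∧
          ((q.1.2 : ℝ) - q.2.1) / ((q.2.2 : ℝ) + 1) < x q.1.1) ∨
        (k = 2 * Nat.pair q.1.1 (Nat.pair (Nat.pair q.1.2 q.2.1) q.2.2) + 1 ∧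
          x q.1.1 < ((q.1.2 : ℝ) - q.2.1) / ((q.2.2 : ℝ) + 1)) := by
      refine EIn.ex (S := fun (k : ℕ) (q : (ℕ × ℕ) × (ℕ × ℕ)) =>
        (k = 2 * Nat.pair q.1.1 (Nat.pair (Nat.pair q.1.2 q.2.1) q.2.2) ∧
          ((q.1.2 : ℝ) - q.2.1) / ((q.2.2 : ℝ) + 1) < x q.1.1) ∨
        (k = 2 * Nat.pair q.1.1 (Nat.pair (Nat.pair q.1.2 q.2.1) q.2.2) + 1 ∧
          x q.1.1 < ((q.1.2 : ℝ) - q.2.1) / ((q.2.2 : ℝ) + 1))) ?_
      refine EIn.or (EIn.and (EIn.of_re (RE.eq (by fun_prop) (by fun_prop))) ?_)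
        (EIn.and (EIn.of_re (RE.eq (by fun_prop) (by fun_prop))) ?_)
      · exact hL.comp (f := fun z : ℕ × ((ℕ × ℕ) × (ℕ × ℕ)) => z.2) (by fun_prop)
      · exact hG.comp (f := fun z : ℕ × ((ℕ × ℕ) × (ℕ × ℕ)) => z.2) (by fun_prop)
    refine h3.of_eq fun k => ?_
    unfold NS
    simp only [Set.mem_ofPred_eq]
    constructor
    · rintro ⟨⟨⟨n, a⟩, ⟨b, d⟩⟩, h⟩; exact ⟨n, a, b, d, h⟩
    · rintro ⟨n, a, b, d, h⟩; exact ⟨⟨⟨n, a⟩, ⟨b, d⟩⟩, h⟩
  · have h3 : EIn (NS x) fun a : ℕ => ∃ t : ℕ,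
        2 * Nat.pair (Nat.pair a t) (Nat.pair (Nat.pair 1 0) 1) ∈ NS x := by
      refine EIn.ex (S := fun (a t : ℕ) =>
        2 * Nat.pair (Nat.pair a t) (Nat.pair (Nat.pair 1 0) 1) ∈ NS x) ?_
      exact EIn.mem (f := fun p : ℕ × ℕ =>
        2 * Nat.pair (Nat.pair p.1 p.2) (Nat.pair (Nat.pair 1 0) 1)) (by fun_prop)
    refine h3.of_eq fun a => ?_
    have h4 : ∀ t, 2 * Nat.pair (Nat.pair a t) (Nat.pair (Nat.pair 1 0) 1) ∈ NS x ↔
        1 / 2 < gg (V1 K c) i1 i2 (root (Nat.pair a t)) := by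
      intro t
      rw [even_mem]
      have : (((1 : ℕ) : ℝ) - ((0 : ℕ) : ℝ)) / (((1 : ℕ) : ℝ) + 1) = 1 / 2 := by norm_num
      rw [this]
    simp only [h4]
    constructor
    · rintro ⟨t, ht⟩
      by_contra ha
      have h5 : ¬ Uq A (root (Nat.pair a t)).2 := by
        intro h6
        apply ha
        have := (hk4 (Nat.pair a t).unpair.1).2 h6
        rwa [Nat.unpair_pair] at this
      have h6 := subB hi1 hi2 hd h1 h2 (hroot _) h5 [false]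
      have h7 : gg (V1 K c) i1 i2 (root (Nat.pair a t)) < 1 / 2 := by
        rw [gg_lt_iff hi1 hi2 hd h1 h2 (hroot _)]
        refine Or.inr ⟨[false], ?_, h6⟩
        norm_num [mid]
      linarith
    · intro ha
      obtain ⟨t, ht⟩ := UK_not K hcA ha
      refine ⟨t, ?_⟩
      rw [lt_gg_iff]
      refine Or.inr ⟨[true], by norm_num [mid], ?_⟩
      refine subA hi1 hi2 hd h1 h2 (hroot _) ?_ [true]
      intro h5
      apply ht
      have := (hk3 (Nat.pair a t).unpair).2 h5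
      rwa [Nat.unpair_pair] at this

include K in
/-- a uniformly codable set is enumeration equivalent to the complement of a graph -/
theorem graph : ∃ f : ℕ → ℕ,
    EIn {k : ℕ | f (Nat.unpair k).1 ≠ (Nat.unpair k).2} (fun y : ℕ => y ∈ A) ∧
      EIn A (fun k : ℕ => k ∈ {k : ℕ | f (Nat.unpair k).1 ≠ (Nat.unpair k).2}) := by
  obtain ⟨x, hx, h1, h2⟩ := point K
  obtain ⟨f, h3, h4⟩ := main hx
  exact ⟨f, ein_trans h2 h3, ein_trans h4 h1⟩

end Pool.Agent.V11258.AT
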