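import Pool.Agent.V11258.AT.Sep

set_option autoImplicit false

/-! The reals given by a uniform coding, and the point of the Hilbert cube. -/

namespace Pool.Agent.V11258.AT

open Encodable Pool.Agent.Helper446 Pool.Agent.Helper446.RE Pool.Agent.Helper446.CB
open Pool.Agent.H288R3.CGC

/-- midpoints -/
noncomputable def mid : List Bool → ℝ
  | [] => 1 / 2
  | b :: l => ((if b then 1 else 0) + mid l) / 2

theorem mid_pos (l : List Bool) : 0 < mid l := by
  induction l with
  | nil => norm_num [mid]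
  | cons b l ih =>
    rw [mid]
    split_ifs <;> linarith

theorem mid_lt (l : List Bool) : mid l < 1 := by
  induction l with
  | nil => norm_num [mid]
  | cons b l ih =>
    rw [mid]
    split_ifs <;> linarith

/-- numerators -/
def vv (l : List Bool) : ℕ := l.foldl (fun v b => 2 * v + (if b then 1 else 0)) 0

theorem vv_gen (l : List Bool) (v : ℕ) :
    l.foldl (fun v b => 2 * v + (if b then 1 else 0)) v = v * 2 ^ l.length + vv l := by
  induction l generalizing v with
  | nil => simp [vv]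
  | cons b l ih =>
    have h1 : vv (b :: l) = (2 * 0 + (if b then 1 else 0)) * 2 ^ l.length + vv l := by
      show List.foldl _ 0 (b :: l) = _
      rw [List.foldl_cons, ih]
    rw [List.foldl_cons, ih, h1, List.length_cons, pow_succ]
    ring

theorem vv_cons (b : Bool) (l : List Bool) :
    vv (b :: l) = (if b then 1 else 0) * 2 ^ l.length + vv l := by
  rw [vv, List.foldl_cons, vv_gen]
  ring

theorem mid_eq (l : List Bool) : mid l = (2 * (vv l : ℝ) + 1) / 2 ^ (l.length + 1) := by
  induction l with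
  | nil => norm_num [mid, vv]
  | cons b l ih =>
    rw [mid, ih, vv_cons, List.length_cons]
    push_cast
    field_simp
    split_ifs <;> ring

theorem vv_comp : Computable vv := by
  have h : Computable fun l : List Bool => l.foldl (fun s b =>
      (fun (_ : List Bool) (q : ℕ × Bool) => 2 * q.1 + (if q.2 then 1 else 0)) l (s, b)) 0 := by
    refine RE.list_foldl (f := fun l : List Bool => l) (g := fun _ => 0)
      (h := fun (_ : List Bool) (q : ℕ × Bool) => 2 * q.1 + (if q.2 then 1 else 0))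
      (by fun_prop) (by fun_prop) ?_
    have h1 : Computable fun x : List Bool × (ℕ × Bool) =>
        2 * x.2.1 + (bif x.2.2 then 1 else 0) := by fun_prop
    refine h1.of_eq fun x => ?_
    obtain ⟨x1, x2, b⟩ := x
    cases b <;> rfl
  exact h

@[fun_prop] theorem vv_comp' {α : Type} [Primcodable α] {f : α → List Bool} (hf : Computable f) :
    Computable fun a => vv (f a) := vv_comp.comp hf

/-- comparing a rational with a midpoint -/
theorem lt_mid_iff (a b c : ℕ) (l : List Bool) : ((a : ℝ) - b) / ((c : ℝ) + 1) < mid l ↔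
    a * 2 ^ (l.length + 1) < (2 * vv l + 1) * (c + 1) + b * 2 ^ (l.length + 1) := by
  rw [mid_eq, div_lt_div_iff₀ (by positivity) (by positivity)]
  rw [← @Nat.cast_lt ℝ]
  push_cast
  constructor <;> intro h <;> linarith

theorem mid_lt_iff (a b c : ℕ) (l : List Bool) : mid l < ((a : ℝ) - b) / ((c : ℝ) + 1) ↔
    (2 * vv l + 1) * (c + 1) + b * 2 ^ (l.length + 1) < a * 2 ^ (l.length + 1) := by
  rw [mid_eq, div_lt_div_iff₀ (by positivity) (by positivity)]
  rw [← @Nat.cast_lt ℝ]
  push_cast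
  constructor <;> intro h <;> linarith

/-- density of the midpoints -/
theorem mid_dense (n : ℕ) : ∀ c d : ℝ, 0 ≤ c → d ≤ 1 → 1 / 2 ^ n < d - c →
    ∃ l, c < mid l ∧ mid l < d := by
  induction n with
  | zero => intro c d hc hd h; norm_num at h; linarith
  | succ n ih =>
    intro c d hc hd h
    have h2 : (1 : ℝ) / 2 ^ (n + 1) = 1 / 2 ^ n / 2 := by rw [pow_succ]; field_simp
    rw [h2] at h
    rcases lt_or_ge c (1 / 2) with h3 | h3
    · rcases lt_or_ge (1 / 2) d with h4 | h4
      · exact ⟨[], h3, h4⟩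
      · obtain ⟨l, h5, h6⟩ := ih (2 * c) (2 * d) (by linarith) (by linarith) (by linarith)
        refine ⟨false :: l, ?_, ?_⟩ <;> rw [mid] <;> simp <;> linarith
    · obtain ⟨l, h5, h6⟩ := ih (2 * c - 1) (2 * d - 1) (by linarith) (by linarith) (by linarith)
      refine ⟨true :: l, ?_, ?_⟩ <;> rw [mid] <;> simp <;> linarith

theorem exists_mid {c d : ℝ} (hc : 0 ≤ c) (hd : d ≤ 1) (h : c < d) : ∃ l, c < mid l ∧ mid l < d := by
  obtain ⟨n, hn⟩ := exists_pow_lt_of_lt_one (show (0 : ℝ) < d - c by linarith)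
    (show (1 / 2 : ℝ) < 1 by norm_num)
  refine mid_dense n c d hc hd ?_
  rw [one_div_pow] at hn
  exact hn

section

variable (U : ℕ → Prop) (W1 W2 : ℕ × ℕ → Prop) (i1 i2 : ℕ × ℕ → ℕ)

/-- one split -/
def step (s : ℕ × ℕ) (b : Bool) : ℕ × ℕ := if b then (s.1, i1 s) else (i2 s, s.2)

/-- the pair of a path -/
def pr (s : ℕ × ℕ) (l : List Bool) : ℕ × ℕ := l.foldl (step i1 i2) s

/-- the real of a pair -/
noncomputable def gg (s : ℕ × ℕ) : ℝ := sSup ({0} ∪ {r | ∃ l, r = mid l ∧ W1 (pr i1 i2 s l)})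

variable {U W1 W2 i1 i2}
variable (hi1 : ∀ s, U (i1 s) ↔ W1 s) (hi2 : ∀ s, U (i2 s) ↔ W2 s)
variable (hd : ∀ s, ¬ (W1 s ∧ W2 s)) (h1 : ∀ s, ¬ U s.1 → U s.2 → W1 s)
  (h2 : ∀ s, U s.1 → ¬ U s.2 → W2 s)

include hi1 hi2 h1 h2

theorem good_step {s : ℕ × ℕ} (hs : U s.1 ∨ U s.2) (b : Bool) :
    U (step i1 i2 s b).1 ∨ U (step i1 i2 s b).2 := by
  unfold step
  cases b
  · simp only [Bool.false_eq_true, if_false]
    rw [hi2]
    by_cases h : U s.2
    · exact Or.inr h
    · exact Or.inl (h2 s (hs.resolve_right h) h)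
  · simp only [if_true]
    rw [hi1]
    by_cases h : U s.1
    · exact Or.inl h
    · exact Or.inr (h1 s h (hs.resolve_left h))

include hd

theorem subA {s : ℕ × ℕ} (hs : U s.1 ∨ U s.2) (hn : ¬ U s.1) (l : List Bool) :
    W1 (pr i1 i2 s l) := by
  induction l generalizing s with
  | nil => exact h1 s hn (hs.resolve_left hn)
  | cons b l ih =>
    refine ih (good_step hi1 hi2 h1 h2 hs b) ?_
    unfold step
    cases b
    · simp only [Bool.false_eq_true, if_false]
      rw [hi2]
      exact fun h => hd s ⟨h1 s hn (hs.resolve_left hn), h⟩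
    · simp only [if_true]
      exact hn

theorem subB {s : ℕ × ℕ} (hs : U s.1 ∨ U s.2) (hn : ¬ U s.2) (l : List Bool) :
    W2 (pr i1 i2 s l) := by
  induction l generalizing s with
  | nil => exact h2 s (hs.resolve_right hn) hn
  | cons b l ih =>
    refine ih (good_step hi1 hi2 h1 h2 hs b) ?_
    unfold step
    cases b
    · simp only [Bool.false_eq_true, if_false]
      exact hn
    · simp only [if_true]
      rw [hi1]
      exact fun h => hd s ⟨h, h2 s (hs.resolve_right hn) hn⟩

theorem upper {s : ℕ × ℕ} (hs : U s.1 ∨ U s.2) (hn : ¬ W1 s) (l : List Bool) :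
    W2 (pr i1 i2 (step i1 i2 s true) l) := by
  refine subB hi1 hi2 hd h1 h2 (good_step hi1 hi2 h1 h2 hs true) ?_ l
  simp only [step, if_true]
  rw [hi1]
  exact hn

theorem lower {s : ℕ × ℕ} (hs : U s.1 ∨ U s.2) (hn : ¬ W2 s) (l : List Bool) :
    W1 (pr i1 i2 (step i1 i2 s false) l) := by
  refine subA hi1 hi2 hd h1 h2 (good_step hi1 hi2 h1 h2 hs false) ?_ l
  simp only [step, Bool.false_eq_true, if_false]
  rw [hi2]
  exact hn

theorem order {s : ℕ × ℕ} (hs : U s.1 ∨ U s.2) (l l' : List Bool) (h : mid l < mid l') :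
    (W1 (pr i1 i2 s l) ∨ W2 (pr i1 i2 s l')) ∧ ¬ (W2 (pr i1 i2 s l) ∧ W1 (pr i1 i2 s l')) := by
  induction l generalizing s l' with
  | nil =>
    cases l' with
    | nil => exact absurd h (lt_irrefl _)
    | cons b' l' =>
      have hb : b' = true := by
        cases b'
        · exfalso
          rw [mid, mid] at h
          have := mid_lt l'
          simp at h
          linarith
        · rfl
      subst hb
      have e : pr i1 i2 s (true :: l') = pr i1 i2 (step i1 i2 s true) l' := rfl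
      have e0 : pr i1 i2 s [] = s := rfl
      rw [e, e0]
      constructor
      · by_cases h3 : W1 s
        · exact Or.inl h3
        · exact Or.inr (upper hi1 hi2 hd h1 h2 hs h3 l')
      · rintro ⟨h3, h4⟩
        have h5 : ¬ W1 s := fun h6 => hd s ⟨h6, h3⟩
        exact hd _ ⟨h4, upper hi1 hi2 hd h1 h2 hs h5 l'⟩
  | cons b l ih =>
    cases l' with
    | nil =>
      have hb : b = false := by
        cases b
        · rfl
        · exfalso
          rw [mid, mid] at h
          have := mid_pos l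
          simp at h
          linarith
      subst hb
      have e : pr i1 i2 s (false :: l) = pr i1 i2 (step i1 i2 s false) l := rfl
      have e0 : pr i1 i2 s [] = s := rfl
      rw [e, e0]
      constructor
      · by_cases h3 : W2 s
        · exact Or.inr h3
        · exact Or.inl (lower hi1 hi2 hd h1 h2 hs h3 l)
      · rintro ⟨h3, h4⟩
        have h5 : ¬ W2 s := fun h6 => hd s ⟨h4, h6⟩
        exact hd _ ⟨lower hi1 hi2 hd h1 h2 hs h5 l, h3⟩
    | cons b' l' =>
      have e : pr i1 i2 s (b :: l) = pr i1 i2 (step i1 i2 s b) l := rfl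
      have e' : pr i1 i2 s (b' :: l') = pr i1 i2 (step i1 i2 s b') l' := rfl
      by_cases hbb : b = b'
      · subst hbb
        have h' : mid l < mid l' := by
          rw [mid, mid] at h
          linarith
        rw [e, e']
        exact ih (good_step hi1 hi2 h1 h2 hs b) l' h'
      · have hb : b = false ∧ b' = true := by
          cases b
          · cases b'
            · exact absurd rfl hbb
            · exact ⟨rfl, rfl⟩
          · cases b'
            · exfalso
              rw [mid, mid] at h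
              have := mid_pos l
              have := mid_lt l'
              simp at h
              linarith
            · exact absurd rfl hbb
        obtain ⟨rfl, rfl⟩ := hb
        rw [e, e']
        constructor
        · by_cases h3 : W1 s
          · exact Or.inl (lower hi1 hi2 hd h1 h2 hs (fun h4 => hd s ⟨h3, h4⟩) l)
          · exact Or.inr (upper hi1 hi2 hd h1 h2 hs h3 l')
        · rintro ⟨h3, h4⟩
          by_cases h5 : W1 s
          · exact hd _ ⟨lower hi1 hi2 hd h1 h2 hs (fun h6 => hd s ⟨h5, h6⟩) l, h3⟩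
          · exact hd _ ⟨h4, upper hi1 hi2 hd h1 h2 hs h5 l'⟩

omit hi1 hi2 hd h1 h2 in
theorem gg_bdd (s : ℕ × ℕ) : BddAbove ({0} ∪ {r : ℝ | ∃ l, r = mid l ∧ W1 (pr i1 i2 s l)}) := by
  refine ⟨1, ?_⟩
  rintro r (h | ⟨l, rfl, -⟩)
  · rw [Set.mem_singleton_iff] at h; rw [h]; norm_num
  · exact (mid_lt l).le

omit hi1 hi2 hd h1 h2 in
theorem gg_nonneg (s : ℕ × ℕ) : 0 ≤ gg W1 i1 i2 s :=
  le_csSup (gg_bdd s) (Or.inl rfl)

omit hi1 hi2 hd h1 h2 in
theorem gg_le (s : ℕ × ℕ) : gg W1 i1 i2 s ≤ 1 := by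
  refine csSup_le ⟨0, Or.inl rfl⟩ ?_
  rintro r (h | ⟨l, rfl, -⟩)
  · rw [Set.mem_singleton_iff] at h; rw [h]; norm_num
  · exact (mid_lt l).le

omit hi1 hi2 hd h1 h2 in
theorem lt_gg_iff (s : ℕ × ℕ) (r : ℝ) : r < gg W1 i1 i2 s ↔
    r < 0 ∨ ∃ l, r < mid l ∧ W1 (pr i1 i2 s l) := by
  constructor
  · intro h
    unfold gg at h
    obtain ⟨y, hy, hry⟩ := exists_lt_of_lt_csSup (⟨0, Or.inl rfl⟩ :
      ({0} ∪ {r : ℝ | ∃ l, r = mid l ∧ W1 (pr i1 i2 s l)}).Nonempty) h
    rcases hy with hy | ⟨l, rfl, hl⟩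
    · rw [Set.mem_singleton_iff] at hy
      exact Or.inl (hy ▸ hry)
    · exact Or.inr ⟨l, hry, hl⟩
  · rintro (h | ⟨l, hl1, hl2⟩)
    · exact lt_of_lt_of_le h (gg_nonneg s)
    · exact lt_of_lt_of_le hl1 (le_csSup (gg_bdd s) (Or.inr ⟨l, rfl, hl2⟩))

theorem gg_lt_iff {s : ℕ × ℕ} (hs : U s.1 ∨ U s.2) (r : ℝ) : gg W1 i1 i2 s < r ↔
    1 < r ∨ ∃ l, mid l < r ∧ W2 (pr i1 i2 s l) := by
  constructor
  · intro h
    rcases lt_or_ge 1 r with h3 | h3
    · exact Or.inl h3
    · right
      obtain ⟨l', h4, h5⟩ := exists_mid (gg_nonneg (W1 := W1) (i1 := i1) (i2 := i2) s) h3 h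
      obtain ⟨l, h6, h7⟩ := exists_mid (gg_nonneg (W1 := W1) (i1 := i1) (i2 := i2) s)
        (mid_lt l').le h4
      refine ⟨l', h5, ?_⟩
      refine ((order hi1 hi2 hd h1 h2 hs l l' h7).1).resolve_left ?_
      intro h8
      have := le_csSup (gg_bdd s) (Or.inr ⟨l, rfl, h8⟩)
      unfold gg at h6
      linarith
  · rintro (h | ⟨l, hl1, hl2⟩)
    · exact lt_of_le_of_lt (gg_le s) h
    · refine lt_of_le_of_lt ?_ hl1
      refine csSup_le ⟨0, Or.inl rfl⟩ ?_
      rintro r' (h | ⟨l', rfl, hl'⟩)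
      · rw [Set.mem_singleton_iff] at h; rw [h]; exact (mid_pos l).le
      · by_contra hcon
        exact (order hi1 hi2 hd h1 h2 hs l l' (not_le.1 hcon)).2 ⟨hl2, hl'⟩

end

end Pool.Agent.V11258.AT
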