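import Pool.Agent.H288R3.CGC.Final

set_option autoImplicit false

/-! Uniform codings of a set: compactness and separation. -/

namespace Pool.Agent.V11258.AT

open Encodable Pool.Agent.Helper446 Pool.Agent.Helper446.RE Pool.Agent.Helper446.CB
open Pool.Agent.H288R3.CGC

/-- transitivity -/
theorem ein_trans {α : Type} [Primcodable α] {N B : Set ℕ} {S : α → Prop} (h1 : EIn N S)
    (h2 : EIn B fun y : ℕ => y ∈ N) : EIn B S := by
  obtain ⟨R, hR, h⟩ := h1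
  have h3 : EIn B fun a : α => ∃ c : List ℕ, R a c ∧ ∀ i < c.length, c.getD i 0 ∈ N := by
    refine EIn.ex (S := fun (a : α) (c : List ℕ) => R a c ∧ ∀ i < c.length, c.getD i 0 ∈ N) ?_
    refine EIn.and (EIn.of_re hR) ?_
    refine EIn.all_lt (S := fun (x : α × List ℕ) (i : ℕ) => x.2.getD i 0 ∈ N) ?_ (by fun_prop)
    exact h2.comp (f := fun x : (α × List ℕ) × ℕ => x.1.2.getD x.2 0) (by fun_prop)
  refine h3.of_eq fun a => ?_
  rw [h a]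
  refine exists_congr fun c => and_congr Iff.rfl ?_
  constructor
  · intro h4 i hi
    obtain ⟨k, hk, rfl⟩ := List.getElem_of_mem hi
    have := h4 k hk
    rw [List.getD_eq_getElem?_getD, List.getElem?_eq_getElem hk] at this
    exact this
  · intro h4 i hi
    rw [List.getD_eq_getElem?_getD, List.getElem?_eq_getElem hi]
    exact h4 _ (List.getElem_mem hi)

/-- A uniform coding of the set `A`. -/
structure Cod (A : Set ℕ) where
  Y0 : ℕ → Prop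
  hY0 : EIn A Y0
  cf : ℕ → ℕ → Prop
  hcf : ComputablePred fun p : ℕ × ℕ => cf p.1 p.2
  hne : ∀ u v, Y0 u → Y0 v → ¬ cf u v
  R : ℕ → List ℕ → Prop
  hR : REPred fun p : ℕ × List ℕ => R p.1 p.2
  hA : ∀ Y : ℕ → Prop, (∀ u, Y0 u → Y u) → (∀ u v, Y u → Y v → ¬ cf u v) →
    ∀ a, a ∈ A ↔ ∃ c, R a c ∧ ∀ i ∈ c, Y i

/-- the universal positive predicate -/
def Uq (A : Set ℕ) (e : ℕ) : Prop :=
  ∃ d : List ℕ, (∃ s, wst (ℕ × List ℕ) e.unpair.1 s (e.unpair.2, d) = true) ∧ ∀ i ∈ d, i ∈ A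

theorem uq_univ {A : Set ℕ} {α : Type} [Primcodable α] {S : α → Prop} (h : EIn A S) :
    ∃ c : ℕ, ∀ a, S a ↔ Uq A (Nat.pair c (encode a)) := by
  obtain ⟨R, hR, h⟩ := h
  have h1 : REPred fun x : ℕ × List ℕ => ∃ a : α, encode a = x.1 ∧ R a x.2 := by
    refine RE.ex (p := fun (x : ℕ × List ℕ) (a : α) => encode a = x.1 ∧ R a x.2) ?_
    refine RE.and (RE.eq (by fun_prop) (by fun_prop)) ?_
    exact RE.comp hR (f := fun y : (ℕ × List ℕ) × α => (y.2, y.1.2)) (by fun_prop)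
  obtain ⟨c, hc⟩ := wst_univ h1
  refine ⟨c, fun a => ?_⟩
  rw [h a]
  unfold Uq
  rw [Nat.unpair_pair]
  refine exists_congr fun d => and_congr ?_ Iff.rfl
  rw [← hc (encode a, d)]
  constructor
  · intro h2; exact ⟨a, rfl, h2⟩
  · rintro ⟨b, hb, h2⟩
    have : b = a := encode_injective hb
    exact this ▸ h2

/-- the number whose bits are the values of `Y` below `l` -/
def nb (Y : ℕ → Bool) (l : ℕ) : ℕ := bitsOf ((List.range l).filter Y)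

theorem nb_testBit (Y : ℕ → Bool) (l u : ℕ) : (nb Y l).testBit u = true ↔ u < l ∧ Y u = true := by
  unfold nb
  rw [testBit_bitsOf, List.mem_filter, List.mem_range]

theorem nb_testBit_lt {Y : ℕ → Bool} {l u : ℕ} (h : u < l) : (nb Y l).testBit u = Y u := by
  rw [Bool.eq_iff_iff, nb_testBit]
  exact ⟨fun h1 => h1.2, fun h1 => ⟨h, h1⟩⟩

/-- membership in the closed class -/
def InP {A : Set ℕ} (K : Cod A) (Y : ℕ → Bool) : Prop :=
  (∀ u, K.Y0 u → Y u = true) ∧ ∀ u v, Y u = true → Y v = true → ¬ K.cf u v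

/-- dead strings -/
def dead {A : Set ℕ} (K : Cod A) (l m : ℕ) : Prop :=
  (∃ u < l, m.testBit u = false ∧ K.Y0 u) ∨
    ∃ u < l, ∃ v < l, m.testBit u = true ∧ m.testBit v = true ∧ K.cf u v

/-- dependence on the bits below `l` -/
def Dep (T : ℕ → ℕ → Prop) : Prop :=
  ∀ l m m', (∀ u < l, m.testBit u = m'.testBit u) → T l m → T l m'

theorem dead_dep {A : Set ℕ} (K : Cod A) : Dep (dead K) := by
  intro l m m' h hd
  rcases hd with ⟨u, hu, h1, h2⟩ | ⟨u, hu, v, hv, h1, h2, h3⟩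
  · exact Or.inl ⟨u, hu, by rw [← h u hu]; exact h1, h2⟩
  · exact Or.inr ⟨u, hu, v, hv, by rw [← h u hu]; exact h1, by rw [← h v hv]; exact h2, h3⟩

theorem dead_mono {A : Set ℕ} (K : Cod A) (l m : ℕ) (hd : dead K l m) : dead K (l + 1) m := by
  rcases hd with ⟨u, hu, h1, h2⟩ | ⟨u, hu, v, hv, h1, h2, h3⟩
  · exact Or.inl ⟨u, by omega, h1, h2⟩
  · exact Or.inr ⟨u, by omega, v, by omega, h1, h2, h3⟩

theorem not_dead {A : Set ℕ} (K : Cod A) {Y : ℕ → Bool} (hY : InP K Y) (l : ℕ) :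
    ¬ dead K l (nb Y l) := by
  rintro (⟨u, hu, h1, h2⟩ | ⟨u, hu, v, hv, h1, h2, h3⟩)
  · rw [nb_testBit_lt hu] at h1
    rw [hY.1 u h2] at h1
    exact absurd h1 (by simp)
  · rw [nb_testBit_lt hu] at h1
    rw [nb_testBit_lt hv] at h2
    exact hY.2 u v h1 h2 h3

theorem isOpen_nb (l : ℕ) (P : ℕ → Prop) : IsOpen {Y : ℕ → Bool | P (nb Y l)} := by
  have hc : Continuous fun Y : ℕ → Bool => fun u : Fin l => Y u :=
    continuous_pi fun u => continuous_apply (u : ℕ)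
  have h1 : ∀ Y Y' : ℕ → Bool, (∀ u < l, Y u = Y' u) → nb Y l = nb Y' l := by
    intro Y Y' h
    unfold nb
    congr 1
    refine List.filter_congr ?_
    intro u hu
    exact h u (List.mem_range.1 hu)
  have h2 : {Y : ℕ → Bool | P (nb Y l)} = (fun Y : ℕ → Bool => fun u : Fin l => Y u) ⁻¹'
      {z | P (nb (fun u => if h : u < l then z ⟨u, h⟩ else false) l)} := by
    ext Y
    simp only [Set.mem_ofPred_eq, Set.mem_preimage]
    rw [h1 Y (fun u => if h : u < l then Y u else false)]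
    intro u hu
    simp [hu]
  rw [h2]
  exact (isOpen_discrete _).preimage hc

/-- compactness -/
theorem compact {A : Set ℕ} (K : Cod A) {T : ℕ → ℕ → Prop} (hdep : Dep T)
    (hmono : ∀ l m, T l m → T (l + 1) m) (h : ∀ Y, InP K Y → ∃ l, T l (nb Y l)) :
    ∃ l, ∀ m < 2 ^ l, T l m ∨ dead K l m := by
  let O : ℕ → Set (ℕ → Bool) := fun l => {Y | T l (nb Y l) ∨ dead K l (nb Y l)}
  have hO : ∀ l, IsOpen (O l) := fun l => isOpen_nb l (fun m => T l m ∨ dead K l m)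
  have hagree : ∀ (Y : ℕ → Bool) (l : ℕ), ∀ u < l, (nb Y l).testBit u = (nb Y (l + 1)).testBit u := by
    intro Y l u hu
    rw [nb_testBit_lt hu, nb_testBit_lt (Nat.lt_succ_of_lt hu)]
  have hOm : Monotone O := by
    refine monotone_nat_of_le_succ fun l => ?_
    rintro Y (h1 | h1)
    · exact Or.inl (hmono _ _ (hdep _ _ _ (hagree Y l) h1))
    · exact Or.inr (dead_mono K _ _ (dead_dep K _ _ _ (hagree Y l) h1))
  have hcov : (Set.univ : Set (ℕ → Bool)) ⊆ ⋃ l, O l := by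
    intro Y _
    rw [Set.mem_iUnion]
    by_cases hY : InP K Y
    · obtain ⟨l, hl⟩ := h Y hY
      exact ⟨l, Or.inl hl⟩
    · unfold InP at hY
      rw [not_and_or] at hY
      rcases hY with h1 | h1
      · push Not at h1
        obtain ⟨u, hu, hYu⟩ := h1
        refine ⟨u + 1, Or.inr (Or.inl ⟨u, Nat.lt_succ_self u, ?_, hu⟩)⟩
        rw [nb_testBit_lt (Nat.lt_succ_self u)]
        simpa using hYu
      · push Not at h1
        obtain ⟨u, v, hu, hv, huv⟩ := h1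
        refine ⟨max u v + 1, Or.inr (Or.inr ⟨u, by omega, v, by omega, ?_, ?_, huv⟩)⟩
        · rw [nb_testBit_lt (by omega)]; exact hu
        · rw [nb_testBit_lt (by omega)]; exact hv
  obtain ⟨l, hl⟩ := isCompact_univ.elim_directed_cover O hO hcov (hOm.directed_le)
  refine ⟨l, fun m _ => ?_⟩
  have h1 : (fun u => m.testBit u) ∈ O l := hl (Set.mem_univ _)
  have h2 : ∀ u < l, (nb (fun u => m.testBit u) l).testBit u = m.testBit u := fun u hu =>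
    nb_testBit_lt hu
  rcases h1 with h1 | h1
  · exact Or.inl (hdep _ _ _ h2 h1)
  · exact Or.inr (dead_dep K _ _ _ h2 h1)

/-- the index of the r.e. relation is `c`; the object `e` is seen at stage `l` along `m` -/
def seen (c e l m : ℕ) : Prop :=
  ∃ k ∈ List.range l, wst (ℕ × List ℕ) c l (e, gd [] k) = true ∧
    ∀ u ∈ gd ([] : List ℕ) k, u < l ∧ m.testBit u = true

theorem seen_comp (c : ℕ) : ComputablePred fun p : (ℕ × ℕ) × ℕ => seen c p.1.1 p.1.2 p.2 := by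
  unfold seen
  refine cp_bex (p := fun (p : (ℕ × ℕ) × ℕ) (k : ℕ) =>
    wst (ℕ × List ℕ) c p.1.2 (p.1.1, gd [] k) = true ∧
      ∀ u ∈ gd ([] : List ℕ) k, u < p.1.2 ∧ p.2.testBit u = true) ?_ (by fun_prop)
  refine cp_and ?_ ?_
  · have h1 : Computable fun q : ((ℕ × ℕ) × ℕ) × ℕ =>
        wst (ℕ × List ℕ) c q.1.1.2 (q.1.1.1, gd [] q.2) :=
      wst_comp.comp (f := fun p : (ℕ × ℕ) × (ℕ × List ℕ) => wst (ℕ × List ℕ) p.1.1 p.1.2 p.2)
        (g := fun q : ((ℕ × ℕ) × ℕ) × ℕ => ((c, q.1.1.2), (q.1.1.1, gd [] q.2))) (by fun_prop)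
    exact cp_eq h1 (by fun_prop)
  · refine cp_ball (p := fun (q : ((ℕ × ℕ) × ℕ) × ℕ) (u : ℕ) =>
      u < q.1.1.2 ∧ q.1.2.testBit u = true) ?_ (by fun_prop)
    refine cp_and (cp_lt (by fun_prop) (by fun_prop)) (cp_eq ?_ (by fun_prop))
    exact testBit_comp.comp (g := fun z : (((ℕ × ℕ) × ℕ) × ℕ) × ℕ => (z.1.1.2, z.2)) (by fun_prop)

theorem seen_dep (c e : ℕ) : Dep (seen c e) := by
  intro l m m' h hs
  obtain ⟨k, hk, h1, h2⟩ := hs
  refine ⟨k, hk, h1, fun u hu => ⟨(h2 u hu).1, ?_⟩⟩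
  rw [← h u (h2 u hu).1]
  exact (h2 u hu).2

theorem seen_mono (c e : ℕ) {l l' : ℕ} (hl : l ≤ l') {m : ℕ} (hs : seen c e l m) :
    seen c e l' m := by
  obtain ⟨k, hk, h1, h2⟩ := hs
  refine ⟨k, ?_, wst_mono hl h1, fun u hu => ⟨lt_of_lt_of_le (h2 u hu).1 hl, (h2 u hu).2⟩⟩
  rw [List.mem_range] at hk ⊢
  omega

theorem seen_iff (c e : ℕ) (Y : ℕ → Bool) : (∃ l, seen c e l (nb Y l)) ↔
    ∃ d : List ℕ, (∃ s, wst (ℕ × List ℕ) c s (e, d) = true) ∧ ∀ i ∈ d, Y i = true := by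
  constructor
  · rintro ⟨l, k, -, h1, h2⟩
    refine ⟨gd [] k, ⟨l, h1⟩, fun i hi => ?_⟩
    have := (h2 i hi).2
    rw [nb_testBit] at this
    exact this.2
  · rintro ⟨d, ⟨s, hs⟩, hd⟩
    have hb : ∃ b, ∀ i ∈ d, i < b := ⟨d.sum + 1, fun i hi =>
      Nat.lt_succ_of_le (List.single_le_sum (fun _ _ => Nat.zero_le _) i hi)⟩
    obtain ⟨b, hb⟩ := hb
    refine ⟨max (max s b) (encode d + 1), encode d, ?_, ?_, ?_⟩
    · rw [List.mem_range]; omega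
    · rw [gd_encode]
      exact wst_mono (by omega) hs
    · rw [gd_encode]
      intro u hu
      have h1 := hb u hu
      refine ⟨by omega, ?_⟩
      rw [nb_testBit]
      exact ⟨by omega, hd u hu⟩

theorem seen_nb_mono (c e : ℕ) (Y : ℕ → Bool) {l l' : ℕ} (hl : l ≤ l')
    (hs : seen c e l (nb Y l)) : seen c e l' (nb Y l') := by
  refine seen_mono c e hl (seen_dep c e l _ _ ?_ hs)
  intro u hu
  rw [nb_testBit_lt hu, nb_testBit_lt (lt_of_lt_of_le hu hl)]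

/-- the second object is seen before the first -/
def R1 (c e1 e2 l m : ℕ) : Prop := ∃ k ∈ List.range (l + 1), seen c e2 k m ∧ ¬ seen c e1 k m
/-- the first object is seen, and not after the second -/
def R2 (c e1 e2 l m : ℕ) : Prop :=
  ∃ k ∈ List.range (l + 1), seen c e1 k m ∧ ∀ k' ∈ List.range k, ¬ seen c e2 k' m

theorem R1_dep (c e1 e2 : ℕ) : Dep (R1 c e1 e2) := by
  intro l m m' h hs
  obtain ⟨k, hk, h1, h2⟩ := hs
  have hk' := List.mem_range.1 hk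
  have h3 : ∀ u < k, m.testBit u = m'.testBit u := fun u hu => h u (by omega)
  exact ⟨k, hk, seen_dep _ _ _ _ _ h3 h1,
    fun h4 => h2 (seen_dep _ _ _ _ _ (fun u hu => (h3 u hu).symm) h4)⟩

theorem R2_dep (c e1 e2 : ℕ) : Dep (R2 c e1 e2) := by
  intro l m m' h hs
  obtain ⟨k, hk, h1, h2⟩ := hs
  have hk' := List.mem_range.1 hk
  have h3 : ∀ u < k, m.testBit u = m'.testBit u := fun u hu => h u (by omega)
  refine ⟨k, hk, seen_dep _ _ _ _ _ h3 h1, fun k' hk2 h4 => h2 k' hk2 ?_⟩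
  have hk3 := List.mem_range.1 hk2
  exact seen_dep _ _ _ _ _ (fun u hu => (h3 u (by omega)).symm) h4

theorem R1_mono (c e1 e2 l m : ℕ) (h : R1 c e1 e2 l m) : R1 c e1 e2 (l + 1) m := by
  obtain ⟨k, hk, h1⟩ := h
  refine ⟨k, ?_, h1⟩
  rw [List.mem_range] at hk ⊢; omega

theorem R2_mono (c e1 e2 l m : ℕ) (h : R2 c e1 e2 l m) : R2 c e1 e2 (l + 1) m := by
  obtain ⟨k, hk, h1⟩ := h
  refine ⟨k, ?_, h1⟩
  rw [List.mem_range] at hk ⊢; omega

theorem R1_comp (c : ℕ) : ComputablePred fun p : ((ℕ × ℕ) × ℕ) × ℕ =>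
    R1 c p.1.1.1 p.1.1.2 p.1.2 p.2 := by
  unfold R1
  refine cp_bex (p := fun (p : ((ℕ × ℕ) × ℕ) × ℕ) (k : ℕ) =>
    seen c p.1.1.2 k p.2 ∧ ¬ seen c p.1.1.1 k p.2) ?_ (by fun_prop)
  refine cp_and ?_ (ComputablePred.not ?_)
  · exact cp_comp (seen_comp c) (f := fun q : (((ℕ × ℕ) × ℕ) × ℕ) × ℕ =>
      ((q.1.1.1.2, q.2), q.1.2)) (by fun_prop)
  · exact cp_comp (seen_comp c) (f := fun q : (((ℕ × ℕ) × ℕ) × ℕ) × ℕ =>
      ((q.1.1.1.1, q.2), q.1.2)) (by fun_prop)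

theorem R2_comp (c : ℕ) : ComputablePred fun p : ((ℕ × ℕ) × ℕ) × ℕ =>
    R2 c p.1.1.1 p.1.1.2 p.1.2 p.2 := by
  unfold R2
  refine cp_bex (p := fun (p : ((ℕ × ℕ) × ℕ) × ℕ) (k : ℕ) =>
    seen c p.1.1.1 k p.2 ∧ ∀ k' ∈ List.range k, ¬ seen c p.1.1.2 k' p.2) ?_ (by fun_prop)
  refine cp_and ?_ ?_
  · exact cp_comp (seen_comp c) (f := fun q : (((ℕ × ℕ) × ℕ) × ℕ) × ℕ =>
      ((q.1.1.1.1, q.2), q.1.2)) (by fun_prop)
  · refine cp_ball (p := fun (q : (((ℕ × ℕ) × ℕ) × ℕ) × ℕ) (k' : ℕ) =>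
      ¬ seen c q.1.1.1.2 k' q.1.2) (ComputablePred.not ?_) (by fun_prop)
    exact cp_comp (seen_comp c) (f := fun q : ((((ℕ × ℕ) × ℕ) × ℕ) × ℕ) × ℕ =>
      ((q.1.1.1.1.2, q.2), q.1.1.2)) (by fun_prop)

section

variable {A : Set ℕ} (K : Cod A)

theorem dead_ein : EIn A fun p : ℕ × ℕ => dead K p.1 p.2 := by
  have h1 : EIn A fun p : ℕ × ℕ => (∃ u : ℕ, (u < p.1 ∧ p.2.testBit u = false) ∧ K.Y0 u) ∨
      ∃ q : ℕ × ℕ, (q.1 < p.1 ∧ q.2 < p.1) ∧ (p.2.testBit q.1 = true ∧ p.2.testBit q.2 = true) ∧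
        K.cf q.1 q.2 := by
    refine EIn.or ?_ ?_
    · refine EIn.ex (S := fun (p : ℕ × ℕ) (u : ℕ) => (u < p.1 ∧ p.2.testBit u = false) ∧ K.Y0 u) ?_
      refine EIn.and (EIn.of_re (RE.and (RE.lt (by fun_prop) (by fun_prop)) (RE.eq ?_
        (by fun_prop)))) ?_
      · exact testBit_comp.comp (g := fun z : (ℕ × ℕ) × ℕ => (z.1.2, z.2)) (by fun_prop)
      · exact K.hY0.comp (f := fun z : (ℕ × ℕ) × ℕ => z.2) (by fun_prop)
    · refine EIn.of_re ?_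
      refine RE.ex (p := fun (p : ℕ × ℕ) (q : ℕ × ℕ) => (q.1 < p.1 ∧ q.2 < p.1) ∧
        (p.2.testBit q.1 = true ∧ p.2.testBit q.2 = true) ∧ K.cf q.1 q.2) ?_
      refine RE.and (RE.and (RE.lt (by fun_prop) (by fun_prop)) (RE.lt (by fun_prop)
        (by fun_prop))) (RE.and (RE.and (RE.eq ?_ (by fun_prop)) (RE.eq ?_ (by fun_prop))) ?_)
      · exact testBit_comp.comp (g := fun z : (ℕ × ℕ) × (ℕ × ℕ) => (z.1.2, z.2.1)) (by fun_prop)
      · exact testBit_comp.comp (g := fun z : (ℕ × ℕ) × (ℕ × ℕ) => (z.1.2, z.2.2)) (by fun_prop)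
      · exact RE.comp K.hcf.to_re (f := fun z : (ℕ × ℕ) × (ℕ × ℕ) => z.2) (by fun_prop)
  refine h1.of_eq fun p => ?_
  unfold dead
  constructor
  · rintro (⟨u, ⟨h2, h3⟩, h4⟩ | ⟨⟨u, v⟩, ⟨h2, h3⟩, ⟨h4, h5⟩, h6⟩)
    · exact Or.inl ⟨u, h2, h3, h4⟩
    · exact Or.inr ⟨u, h2, v, h3, h4, h5, h6⟩
  · rintro (⟨u, h2, h3, h4⟩ | ⟨u, h2, v, h3, h4, h5, h6⟩)
    · exact Or.inl ⟨u, ⟨h2, h3⟩, h4⟩
    · exact Or.inr ⟨(u, v), ⟨h2, h3⟩, ⟨h4, h5⟩, h6⟩

/-- the first separating predicate -/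
def V1 (c : ℕ) (p : ℕ × ℕ) : Prop := ∃ l, ∀ m < 2 ^ l, R1 c p.1 p.2 l m ∨ dead K l m
/-- the second separating predicate -/
def V2 (c : ℕ) (p : ℕ × ℕ) : Prop := ∃ l, ∀ m < 2 ^ l, R2 c p.1 p.2 l m ∨ dead K l m

theorem V1_ein (c : ℕ) : EIn A (V1 K c) := by
  refine EIn.ex (S := fun (p : ℕ × ℕ) (l : ℕ) => ∀ m < 2 ^ l, R1 c p.1 p.2 l m ∨ dead K l m) ?_
  refine EIn.all_lt (S := fun (x : (ℕ × ℕ) × ℕ) (m : ℕ) =>
    R1 c x.1.1 x.1.2 x.2 m ∨ dead K x.2 m) ?_ (f := fun x : (ℕ × ℕ) × ℕ => 2 ^ x.2) (by fun_prop)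
  refine EIn.or (EIn.of_re (R1_comp c).to_re) ?_
  exact (dead_ein K).comp (f := fun x : ((ℕ × ℕ) × ℕ) × ℕ => (x.1.2, x.2)) (by fun_prop)

theorem V2_ein (c : ℕ) : EIn A (V2 K c) := by
  refine EIn.ex (S := fun (p : ℕ × ℕ) (l : ℕ) => ∀ m < 2 ^ l, R2 c p.1 p.2 l m ∨ dead K l m) ?_
  refine EIn.all_lt (S := fun (x : (ℕ × ℕ) × ℕ) (m : ℕ) =>
    R2 c x.1.1 x.1.2 x.2 m ∨ dead K x.2 m) ?_ (f := fun x : (ℕ × ℕ) × ℕ => 2 ^ x.2) (by fun_prop)
  refine EIn.or (EIn.of_re (R2_comp c).to_re) ?_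
  exact (dead_ein K).comp (f := fun x : ((ℕ × ℕ) × ℕ) × ℕ => (x.1.2, x.2)) (by fun_prop)

open Classical in
/-- the canonical member of the class -/
noncomputable def Yc (u : ℕ) : Bool := decide (K.Y0 u)

open Classical in
theorem Yc_inP : InP K (Yc K) := by
  refine ⟨fun u hu => decide_eq_true hu, fun u v hu hv => ?_⟩
  exact K.hne u v (of_decide_eq_true hu) (of_decide_eq_true hv)

theorem bit_bound {Y : ℕ → Bool} {l : ℕ} : nb Y l < 2 ^ l := by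
  refine Nat.lt_pow_two_of_testBit _ ?_
  intro i hi
  rw [Bool.eq_false_iff]
  intro h
  rw [nb_testBit] at h
  omega

theorem V_disj (c : ℕ) (p : ℕ × ℕ) : ¬ (V1 K c p ∧ V2 K c p) := by
  rintro ⟨⟨l1, h1⟩, ⟨l2, h2⟩⟩
  have h3 := (h1 _ bit_bound).resolve_right (not_dead K (Yc_inP K) l1)
  have h4 := (h2 _ bit_bound).resolve_right (not_dead K (Yc_inP K) l2)
  obtain ⟨k1, hk1, a1, a2⟩ := h3
  obtain ⟨k2, hk2, b1, b2⟩ := h4
  rw [List.mem_range] at hk1 hk2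
  -- `seen` along the canonical member
  have e1 : seen c p.2 k1 (nb (Yc K) k1) := by
    refine seen_dep _ _ _ _ _ ?_ a1
    intro u hu
    rw [nb_testBit_lt (by omega), nb_testBit_lt hu]
  have e2 : ¬ seen c p.1 k1 (nb (Yc K) k1) := by
    intro h5
    apply a2
    refine seen_dep _ _ _ _ _ ?_ h5
    intro u hu
    rw [nb_testBit_lt hu, nb_testBit_lt (by omega)]
  have e3 : seen c p.1 k2 (nb (Yc K) k2) := by
    refine seen_dep _ _ _ _ _ ?_ b1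
    intro u hu
    rw [nb_testBit_lt (by omega), nb_testBit_lt hu]
  have h6 : k1 < k2 := by
    by_contra hcon
    exact e2 (seen_nb_mono _ _ _ (not_lt.1 hcon) e3)
  refine b2 k1 (List.mem_range.2 h6) ?_
  refine seen_dep _ _ _ _ _ ?_ e1
  intro u hu
  rw [nb_testBit_lt hu, nb_testBit_lt (by omega)]

/-- the relation of positive predicates along members of the class -/
def QQ (e : ℕ) (d : List ℕ) : Prop :=
  ∃ c : List ℕ, (∃ s, wst (ℕ × List ℕ) e.unpair.1 s (e.unpair.2, c) = true) ∧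
    ∀ i ∈ c, ∃ d' : List ℕ, K.R i d' ∧ ∀ u ∈ d', u ∈ d

theorem QQ_re : REPred fun p : ℕ × List ℕ => QQ K p.1 p.2 := by
  unfold QQ
  refine RE.ex (p := fun (p : ℕ × List ℕ) (c : List ℕ) =>
    (∃ s, wst (ℕ × List ℕ) p.1.unpair.1 s (p.1.unpair.2, c) = true) ∧
    ∀ i ∈ c, ∃ d' : List ℕ, K.R i d' ∧ ∀ u ∈ d', u ∈ p.2) ?_
  refine RE.and ?_ ?_
  · refine RE.exN (p := fun (x : (ℕ × List ℕ) × List ℕ) (s : ℕ) =>
      wst (ℕ × List ℕ) x.1.1.unpair.1 s (x.1.1.unpair.2, x.2) = true) (of_bool ?_)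
    exact wst_comp.comp (f := fun p : (ℕ × ℕ) × (ℕ × List ℕ) => wst (ℕ × List ℕ) p.1.1 p.1.2 p.2)
      (g := fun x : ((ℕ × List ℕ) × List ℕ) × ℕ => ((x.1.1.1.unpair.1, x.2),
        (x.1.1.1.unpair.2, x.1.2))) (by fun_prop)
  · refine RE.all_mem (p := fun (x : (ℕ × List ℕ) × List ℕ) (i : ℕ) =>
      ∃ d' : List ℕ, K.R i d' ∧ ∀ u ∈ d', u ∈ x.1.2) ?_ (by fun_prop)
    refine RE.ex (p := fun (x : ((ℕ × List ℕ) × List ℕ) × ℕ) (d' : List ℕ) =>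
      K.R x.2 d' ∧ ∀ u ∈ d', u ∈ x.1.1.2) ?_
    refine RE.and ?_ ?_
    · exact RE.comp K.hR (f := fun x : (((ℕ × List ℕ) × List ℕ) × ℕ) × List ℕ =>
        (x.1.2, x.2)) (by fun_prop)
    · refine RE.all_mem (p := fun (x : (((ℕ × List ℕ) × List ℕ) × ℕ) × List ℕ) (u : ℕ) =>
        u ∈ x.1.1.1.2) (RE.mem_list (by fun_prop) (by fun_prop)) (by fun_prop)

theorem exists_cq : ∃ c, ∀ Y, InP K Y → ∀ e, Uq A e ↔ ∃ l, seen c e l (nb Y l) := by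
  obtain ⟨c, hc⟩ := wst_univ (QQ_re K)
  refine ⟨c, fun Y hY e => ?_⟩
  rw [seen_iff]
  have h1 : ∀ a, a ∈ A ↔ ∃ c, K.R a c ∧ ∀ i ∈ c, Y i = true :=
    K.hA (fun u => Y u = true) hY.1 hY.2
  constructor
  · rintro ⟨d, hd1, hd2⟩
    have h2 : ∀ i, ∃ d' : List ℕ, i ∈ d → K.R i d' ∧ ∀ u ∈ d', Y u = true := by
      intro i
      by_cases hi : i ∈ d
      · obtain ⟨d', hd'⟩ := (h1 i).1 (hd2 i hi)
        exact ⟨d', fun _ => hd'⟩
      · exact ⟨[], fun h => absurd h hi⟩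
    choose w hw using h2
    refine ⟨d.flatMap w, (hc (e, _)).1 ⟨d, hd1, fun i hi => ⟨w i, (hw i hi).1, ?_⟩⟩, ?_⟩
    · intro u hu
      exact List.mem_flatMap.2 ⟨i, hi, hu⟩
    · intro u hu
      obtain ⟨i, hi, hu⟩ := List.mem_flatMap.1 hu
      exact (hw i hi).2 u hu
  · rintro ⟨d, hd1, hd2⟩
    obtain ⟨c', hc1, hc2⟩ := (hc (e, d)).2 hd1
    refine ⟨c', hc1, fun i hi => ?_⟩
    obtain ⟨d', h3, h4⟩ := hc2 i hi
    exact (h1 i).2 ⟨d', h3, fun u hu => hd2 u (h4 u hu)⟩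

theorem exists_cA : ∃ c, ∀ Y, InP K Y → ∀ a, a ∈ A ↔ ∃ l, seen c a l (nb Y l) := by
  obtain ⟨c, hc⟩ := wst_univ K.hR
  refine ⟨c, fun Y hY a => ?_⟩
  rw [seen_iff, K.hA (fun u => Y u = true) hY.1 hY.2 a]
  refine exists_congr fun d => and_congr (hc (a, d)) Iff.rfl

variable {K}

theorem V1_of {c : ℕ} (hc : ∀ Y, InP K Y → ∀ e, Uq A e ↔ ∃ l, seen c e l (nb Y l)) {p : ℕ × ℕ}
    (h1 : ¬ Uq A p.1) (h2 : Uq A p.2) : V1 K c p := by
  refine compact K (R1_dep c p.1 p.2) (R1_mono c p.1 p.2) ?_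
  intro Y hY
  obtain ⟨l, hl⟩ := (hc Y hY p.2).1 h2
  exact ⟨l, l, List.mem_range.2 (Nat.lt_succ_self l), hl, fun h3 => h1 ((hc Y hY p.1).2 ⟨l, h3⟩)⟩

theorem V2_of {c : ℕ} (hc : ∀ Y, InP K Y → ∀ e, Uq A e ↔ ∃ l, seen c e l (nb Y l)) {p : ℕ × ℕ}
    (h1 : Uq A p.1) (h2 : ¬ Uq A p.2) : V2 K c p := by
  refine compact K (R2_dep c p.1 p.2) (R2_mono c p.1 p.2) ?_
  intro Y hY
  obtain ⟨l, hl⟩ := (hc Y hY p.1).1 h1
  refine ⟨l, l, List.mem_range.2 (Nat.lt_succ_self l), hl, fun k' hk' h3 => h2 ?_⟩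
  rw [List.mem_range] at hk'
  refine (hc Y hY p.2).2 ⟨k', seen_dep _ _ _ _ _ ?_ h3⟩
  intro u hu
  rw [nb_testBit_lt (by omega), nb_testBit_lt hu]

end

end Pool.Agent.V11258.AT
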